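import Mathlib

namespace Pool.Agent.Helper5

open Finset

/-- All quadruples of positive integers `(a, b, c, d)` with `a * b + c * d = N`. -/
def Sol (N : ℕ) : Finset (ℕ × ℕ × ℕ × ℕ) :=
  ((Icc 1 N) ×ˢ (Icc 1 N) ×ˢ (Icc 1 N) ×ˢ (Icc 1 N)).filter
    (fun x => x.1 * x.2.1 + x.2.2.1 * x.2.2.2 = N)

theorem mem_Sol {N a b c d : ℕ} :
    (a, b, c, d) ∈ Sol N ↔ (0 < a ∧ 0 < b ∧ 0 < c ∧ 0 < d) ∧ a * b + c * d = N := by
  simp only [Sol, mem_filter, mem_product, mem_Icc]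
  constructor
  · rintro ⟨⟨⟨h1, -⟩, ⟨h2, -⟩, ⟨h3, -⟩, ⟨h4, -⟩⟩, h⟩
    exact ⟨⟨h1, h2, h3, h4⟩, h⟩
  · rintro ⟨⟨h1, h2, h3, h4⟩, h⟩
    have e1 : a ≤ a * b := Nat.le_mul_of_pos_right a h2
    have e2 : b ≤ a * b := Nat.le_mul_of_pos_left b h1
    have e3 : c ≤ c * d := Nat.le_mul_of_pos_right c h4
    have e4 : d ≤ c * d := Nat.le_mul_of_pos_left d h3
    refine ⟨⟨⟨h1, by omega⟩, ⟨h2, by omega⟩, ⟨h3, by omega⟩, ⟨h4, by omega⟩⟩, h⟩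

open Classical in
/-- The number of solutions satisfying a predicate. -/
noncomputable def cnt (N : ℕ) (p : ℕ → ℕ → ℕ → ℕ → Prop) : ℕ :=
  ((Sol N).filter (fun x => p x.1 x.2.1 x.2.2.1 x.2.2.2)).card

theorem cnt_congr {N : ℕ} {p q : ℕ → ℕ → ℕ → ℕ → Prop}
    (h : ∀ a b c d, 0 < a → 0 < b → 0 < c → 0 < d → a * b + c * d = N →
      (p a b c d ↔ q a b c d)) : cnt N p = cnt N q := by
  classical
  unfold cnt
  congr 1
  apply filter_congr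
  rintro ⟨a, b, c, d⟩ hx
  obtain ⟨⟨h1, h2, h3, h4⟩, h5⟩ := mem_Sol.1 hx
  exact h a b c d h1 h2 h3 h4 h5

theorem cnt_split {N : ℕ} (p r : ℕ → ℕ → ℕ → ℕ → Prop) :
    cnt N p = cnt N (fun a b c d => p a b c d ∧ r a b c d)
      + cnt N (fun a b c d => p a b c d ∧ ¬ r a b c d) := by
  classical
  unfold cnt
  rw [← Finset.card_filter_add_card_filter_not
    (s := (Sol N).filter (fun x => p x.1 x.2.1 x.2.2.1 x.2.2.2))
    (fun x => r x.1 x.2.1 x.2.2.1 x.2.2.2), filter_filter, filter_filter]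
  congr

theorem cnt_bij {N : ℕ} (p q : ℕ → ℕ → ℕ → ℕ → Prop)
    (f g : ℕ → ℕ → ℕ → ℕ → ℕ × ℕ × ℕ × ℕ)
    (hf : ∀ a b c d, 0 < a → 0 < b → 0 < c → 0 < d → a * b + c * d = N → p a b c d →
      f a b c d ∈ Sol N ∧
      q (f a b c d).1 (f a b c d).2.1 (f a b c d).2.2.1 (f a b c d).2.2.2 ∧
      g (f a b c d).1 (f a b c d).2.1 (f a b c d).2.2.1 (f a b c d).2.2.2 = (a, b, c, d))
    (hg : ∀ a b c d, 0 < a → 0 < b → 0 < c → 0 < d → a * b + c * d = N → q a b c d →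
      g a b c d ∈ Sol N ∧
      p (g a b c d).1 (g a b c d).2.1 (g a b c d).2.2.1 (g a b c d).2.2.2 ∧
      f (g a b c d).1 (g a b c d).2.1 (g a b c d).2.2.1 (g a b c d).2.2.2 = (a, b, c, d)) :
    cnt N p = cnt N q := by
  classical
  unfold cnt
  refine Finset.card_nbij' (fun x => f x.1 x.2.1 x.2.2.1 x.2.2.2)
    (fun x => g x.1 x.2.1 x.2.2.1 x.2.2.2) ?_ ?_ ?_ ?_
  · rintro ⟨a, b, c, d⟩ hx
    simp only [mem_coe, mem_filter] at hx ⊢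
    obtain ⟨⟨h1, h2, h3, h4⟩, h5⟩ := mem_Sol.1 hx.1
    have := hf a b c d h1 h2 h3 h4 h5 hx.2
    exact ⟨this.1, this.2.1⟩
  · rintro ⟨a, b, c, d⟩ hx
    simp only [mem_coe, mem_filter] at hx ⊢
    obtain ⟨⟨h1, h2, h3, h4⟩, h5⟩ := mem_Sol.1 hx.1
    have := hg a b c d h1 h2 h3 h4 h5 hx.2
    exact ⟨this.1, this.2.1⟩
  · rintro ⟨a, b, c, d⟩ hx
    simp only [mem_coe, mem_filter] at hx ⊢
    obtain ⟨⟨h1, h2, h3, h4⟩, h5⟩ := mem_Sol.1 hx.1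
    exact (hf a b c d h1 h2 h3 h4 h5 hx.2).2.2
  · rintro ⟨a, b, c, d⟩ hx
    simp only [mem_coe, mem_filter] at hx ⊢
    obtain ⟨⟨h1, h2, h3, h4⟩, h5⟩ := mem_Sol.1 hx.1
    exact (hg a b c d h1 h2 h3 h4 h5 hx.2).2.2

/-- A fixed point free involution on a class of solutions forces an even count. -/
theorem cnt_even {N : ℕ} (p : ℕ → ℕ → ℕ → ℕ → Prop)
    (f : ℕ → ℕ → ℕ → ℕ → ℕ × ℕ × ℕ × ℕ)
    (hf : ∀ a b c d, 0 < a → 0 < b → 0 < c → 0 < d → a * b + c * d = N → p a b c d →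
      f a b c d ∈ Sol N ∧
      p (f a b c d).1 (f a b c d).2.1 (f a b c d).2.2.1 (f a b c d).2.2.2 ∧
      f (f a b c d).1 (f a b c d).2.1 (f a b c d).2.2.1 (f a b c d).2.2.2 = (a, b, c, d) ∧
      f a b c d ≠ (a, b, c, d)) :
    Even (cnt N p) := by
  classical
  have key : ((cnt N p : ℕ) : ZMod 2) = 0 := by
    unfold cnt
    rw [Finset.card_eq_sum_ones, Nat.cast_sum]
    refine Finset.sum_involution (fun x _ => f x.1 x.2.1 x.2.2.1 x.2.2.2) ?_ ?_ ?_ ?_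
    · intro x _
      decide
    · rintro ⟨a, b, c, d⟩ hx _
      obtain ⟨⟨h1, h2, h3, h4⟩, h5⟩ := mem_Sol.1 (mem_filter.1 hx).1
      exact (hf a b c d h1 h2 h3 h4 h5 (mem_filter.1 hx).2).2.2.2
    · rintro ⟨a, b, c, d⟩ hx
      obtain ⟨⟨h1, h2, h3, h4⟩, h5⟩ := mem_Sol.1 (mem_filter.1 hx).1
      have := hf a b c d h1 h2 h3 h4 h5 (mem_filter.1 hx).2
      exact mem_filter.2 ⟨this.1, this.2.1⟩
    · rintro ⟨a, b, c, d⟩ hx
      obtain ⟨⟨h1, h2, h3, h4⟩, h5⟩ := mem_Sol.1 (mem_filter.1 hx).1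
      exact (hf a b c d h1 h2 h3 h4 h5 (mem_filter.1 hx).2).2.2.1
  rw [ZMod.natCast_eq_zero_iff] at key
  exact even_iff_two_dvd.2 key

end Pool.Agent.Helper5
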