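import Pool.Agent.Helper5.QuadParity

namespace Pool.Agent.Helper5

open Finset

/-- `FM N` is even when `N = 2 p m` with `p` a prime not dividing `m` and `m` not a square. -/
theorem FM_even {N p : ℕ} (hp : p.Prime) (hp2 : p % 2 = 1) (hN : N % 4 = 2) (hpN : p ∣ N)
    (hpp : ¬ p * p ∣ N)
    (hns : ∀ k : ℕ, 2 * p * (k * k) ≠ N) : Even (FM N) := by
  rcases (by omega : N % 8 = 2 ∨ N % 8 = 6) with h8 | h8
  · rw [FM_zero h8]; exact ⟨0, rfl⟩
  refine cnt_even _ (fun a b c d =>
    if p ∣ c then (p * a, c / p, c / p, p * a)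
    else if p * c < a / p then (a / p, p * c, p * c, a / p)
    else (p * c, a / p, a / p, p * c)) ?_
  intro a b c d ha hb hc hd h hx
  obtain ⟨h1, h2, h3, h4, h5, h6⟩ := hx
  subst h3
  subst h5
  have hp0 : 0 < p := hp.pos
  have hp1 : 1 < p := hp.one_lt
  have hprod : 2 * (d * b) = N := by rw [← h]; ring
  have hdb : (d * b) % 4 = 3 := by omega
  have hp4 : (p % 4 = 1 ∨ p % 4 = 3) := by omega
  -- p divides exactly one of d, b
  have hdiv : p ∣ d ∨ p ∣ b := by
    have h7 : p ∣ 2 * (d * b) := by rw [hprod]; exact hpN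
    rcases (hp.dvd_mul).1 h7 with h8 | h8
    · exfalso
      have := Nat.le_of_dvd (by norm_num) h8
      interval_cases p <;> omega
    · exact (hp.dvd_mul).1 h8
  have key : ∀ x y : ℕ, 2 * (x * y) = N → (x + y) % 4 = 0 ∧ x % 2 = 1 ∧ y % 2 = 1 := by
    intro x y hxy
    have e1 : (x * y) % 4 = 3 := by omega
    rw [mul_mod4] at e1
    have f1 : x % 4 < 4 := Nat.mod_lt _ (by norm_num)
    have f2 : y % 4 < 4 := Nat.mod_lt _ (by norm_num)
    have g1 : x % 4 = 0 ∨ x % 4 = 1 ∨ x % 4 = 2 ∨ x % 4 = 3 := by omega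
    have g2 : y % 4 = 0 ∨ y % 4 = 1 ∨ y % 4 = 2 ∨ y % 4 = 3 := by omega
    rcases g1 with g1 | g1 | g1 | g1 <;> rcases g2 with g2 | g2 | g2 | g2 <;>
      rw [g1, g2] at e1 <;> omega
  by_cases hpb : p ∣ b
  · obtain ⟨u, rfl⟩ := hpb
    have e1 : p * u / p = u := Nat.mul_div_cancel_left u hp0
    have hu : ¬ p ∣ u := by
      rintro ⟨w, rfl⟩
      apply hpp
      rw [← hprod]
      exact ⟨2 * (d * w), by ring⟩
    have hu0 : 0 < u := by
      rcases Nat.eq_zero_or_pos u with h0 | h0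
      · rw [h0] at hb; omega
      · exact h0
    have e2 : p * d / p = d := Nat.mul_div_cancel_left d hp0
    have e3 : ¬ p * u < d ∨ p * u < d := by tauto
    have heq : 2 * ((p * d) * u) = N := by rw [← hprod]; ring
    have hk := key _ _ heq
    have hlt : u < p * d := by
      have : u ≤ p * u := Nat.le_mul_of_pos_left u hp0
      have : d ≤ p * d := Nat.le_mul_of_pos_left d hp0
      omega
    simp only [dvd_mul_right, if_true, e1, hu, if_false, e2, h1]
    refine ⟨mem_Sol.2 ⟨⟨by positivity, hu0, hu0, by positivity⟩, by rw [← heq]; ring⟩, ?_,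
      trivial, ?_⟩
    · simp only [true_and]
      omega
    · intro h7
      simp only [Prod.mk.injEq] at h7
      have : p * d = d := h7.1
      have : 1 * d < p * d := Nat.mul_lt_mul_of_pos_right hp1 hd
      omega
  · have hpd : p ∣ d := by tauto
    obtain ⟨u, rfl⟩ := hpd
    have e1 : p * u / p = u := Nat.mul_div_cancel_left u hp0
    have hu : ¬ p ∣ u := by
      rintro ⟨w, rfl⟩
      apply hpp
      rw [← hprod]
      exact ⟨2 * (w * b), by ring⟩
    have hu0 : 0 < u := by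
      rcases Nat.eq_zero_or_pos u with h0 | h0
      · rw [h0] at hd; omega
      · exact h0
    have heq : 2 * ((p * b) * u) = N := by rw [← hprod]; ring
    have hk := key _ _ heq
    by_cases hlt : p * b < u
    · simp only [hpb, if_false, e1, hlt, if_true, dvd_mul_right]
      have e2 : p * b / p = b := Nat.mul_div_cancel_left b hp0
      simp only [e2]
      refine ⟨mem_Sol.2 ⟨⟨hu0, by positivity, by positivity, hu0⟩, by rw [← heq]; ring⟩, ?_,
        trivial, ?_⟩
      · simp only [true_and]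
        omega
      · intro h7
        simp only [Prod.mk.injEq] at h7
        have h8 : u = p * u := h7.1
        have : 1 * u < p * u := Nat.mul_lt_mul_of_pos_right hp1 hu0
        omega
    · have hne : p * b ≠ u := by
        intro h9
        exact hu ⟨b, h9.symm⟩
      have e2 : p * b / p = b := Nat.mul_div_cancel_left b hp0
      have e3 : ¬ p * u < b := by
        have : u ≤ p * u := Nat.le_mul_of_pos_left u hp0
        have : b ≤ p * b := Nat.le_mul_of_pos_left b hp0
        omega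
      simp only [hpb, if_false, e1, hlt, hu, e2, e3]
      refine ⟨mem_Sol.2 ⟨⟨by positivity, hu0, hu0, by positivity⟩, by rw [← heq]; ring⟩, ?_,
        trivial, ?_⟩
      · simp only [true_and]
        omega
      · intro h7
        simp only [Prod.mk.injEq] at h7
        apply hns b
        have : u = b := h7.2.1
        rw [← hprod, this]; ring

/-- Empty classes. -/
theorem cnt_zero {N : ℕ} (p : ℕ → ℕ → ℕ → ℕ → Prop)
    (h : ∀ a b c d, 0 < a → 0 < b → 0 < c → 0 < d → a * b + c * d = N → ¬ p a b c d) :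
    cnt N p = 0 := by
  have : cnt N p = cnt N (fun _ _ _ _ => False) := by
    apply cnt_congr
    intro a b c d ha hb hc hd h5
    exact ⟨fun h6 => h a b c d ha hb hc hd h5 h6, False.elim⟩
  rw [this]
  classical
  unfold cnt
  simp

/-- parity of a product -/
theorem mul_mod2 (x y : ℕ) : (x * y) % 2 = ((x % 2) * (y % 2)) % 2 := Nat.mul_mod x y 2

theorem par_excl {a b c d N : ℕ} (h : a * b + c * d = N) (hN : N % 4 = 2) :
    ¬ (a % 2 = 0 ∧ b % 2 = 0 ∧ c % 2 = 0 ∧ d % 2 = 0) ∧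
    ¬ (a % 2 = 1 ∧ b % 2 = 1 ∧ (c % 2 = 0 ∨ d % 2 = 0)) ∧
    ¬ (c % 2 = 1 ∧ d % 2 = 1 ∧ (a % 2 = 0 ∨ b % 2 = 0)) := by
  have h2 : ((a % 2) * (b % 2) + (c % 2) * (d % 2)) % 2 = 0 := by
    have : N % 2 = 0 := by omega
    rw [← this, ← h, Nat.add_mod, Nat.add_mod (a * b), Nat.mul_mod a b 2, Nat.mul_mod c d 2]
  refine ⟨?_, ?_, ?_⟩
  · rintro ⟨h3, h4, h5, h6⟩
    obtain ⟨a', rfl⟩ : ∃ k, a = 2 * k := ⟨a / 2, by omega⟩
    obtain ⟨b', rfl⟩ : ∃ k, b = 2 * k := ⟨b / 2, by omega⟩
    obtain ⟨c', rfl⟩ : ∃ k, c = 2 * k := ⟨c / 2, by omega⟩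
    obtain ⟨d', rfl⟩ : ∃ k, d = 2 * k := ⟨d / 2, by omega⟩
    have : 2 * a' * (2 * b') + 2 * c' * (2 * d') = 4 * (a' * b' + c' * d') := by ring
    omega
  · rintro ⟨h3, h4, h5⟩
    rcases h5 with h5 | h5 <;> rw [h3, h4, h5] at h2 <;> omega
  · rintro ⟨h3, h4, h5⟩
    rcases h5 with h5 | h5 <;> rw [h3, h4, h5] at h2 <;> omega

/-- number of two-size partitions with `a + b + d` even -/
theorem rk_zero_eq {N : ℕ} (hN : N % 4 = 2) :
    cnt N (fun a b c d => c < a ∧ (a + b + d) % 2 = 0) = P1 N + P4 N + P8 N := by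
  rw [cnt_split _ (fun a b c d => d % 2 = 0), add_comm, cnt_split _ (fun a b c d => a % 2 = 0)]
  congr 1
  · congr 1 <;>
    · apply cnt_congr
      intro a b c d _ _ _ _ h
      have := par_excl h hN
      constructor <;> intro hx <;> omega
  · apply cnt_congr
    intro a b c d _ _ _ _ h
    have := par_excl h hN
    constructor <;> intro hx <;> omega

theorem rk_one_eq {N : ℕ} (hN : N % 4 = 2) :
    cnt N (fun a b c d => c < a ∧ (a + b + d) % 2 = 1)
      = P9 N + P7 N + (P3 N + P2 N + (P5 N + P6 N)) := by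
  rw [cnt_split _ (fun a b c d => d % 2 = 0), add_comm, cnt_split _ (fun a b c d => a % 2 = 1)]
  congr 1
  · congr 1 <;>
    · apply cnt_congr
      intro a b c d _ _ _ _ h
      have := par_excl h hN
      constructor <;> intro hx <;> omega
  · rw [cnt_split _ (fun a b c d => a % 2 = 0)]
    congr 1
    · rw [cnt_split _ (fun a b c d => c % 2 = 0)]
      congr 1 <;>
      · apply cnt_congr
        intro a b c d _ _ _ _ h
        have := par_excl h hN
        constructor <;> intro hx <;> omega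
    · rw [cnt_split _ (fun a b c d => c % 2 = 1)]
      congr 1 <;>
      · apply cnt_congr
        intro a b c d _ _ _ _ h
        have := par_excl h hN
        constructor <;> intro hx <;> omega

theorem rk2_zero_eq {N : ℕ} (hN : N % 4 = 2) :
    cnt N (fun a b c d => c < a ∧ (a + c + d) % 2 = 0) = P4 N + (P3 N + P5 N) := by
  rw [cnt_split _ (fun a b c d => d % 2 = 0), add_comm]
  congr 1
  · apply cnt_congr
    intro a b c d _ _ _ _ h
    have := par_excl h hN
    constructor <;> intro hx <;> omega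
  · rw [cnt_split _ (fun a b c d => a % 2 = 0)]
    congr 1 <;>
    · apply cnt_congr
      intro a b c d _ _ _ _ h
      have := par_excl h hN
      constructor <;> intro hx <;> omega

theorem rk2_one_eq {N : ℕ} (hN : N % 4 = 2) :
    cnt N (fun a b c d => c < a ∧ (a + c + d) % 2 = 1)
      = P9 N + (P1 N + P7 N) + (P6 N + (P2 N + P8 N)) := by
  rw [cnt_split _ (fun a b c d => d % 2 = 0), add_comm, cnt_split _ (fun a b c d => a % 2 = 1)]
  congr 1
  · congr 1
    · apply cnt_congr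
      intro a b c d _ _ _ _ h
      have := par_excl h hN
      constructor <;> intro hx <;> omega
    · rw [cnt_split _ (fun a b c d => b % 2 = 1)]
      congr 1 <;>
      · apply cnt_congr
        intro a b c d _ _ _ _ h
        have := par_excl h hN
        constructor <;> intro hx <;> omega
  · rw [cnt_split _ (fun a b c d => a % 2 = 1)]
    congr 1
    · apply cnt_congr
      intro a b c d _ _ _ _ h
      have := par_excl h hN
      constructor <;> intro hx <;> omega
    · rw [cnt_split _ (fun a b c d => b % 2 = 1)]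
      congr 1 <;>
      · apply cnt_congr
        intro a b c d _ _ _ _ h
        have := par_excl h hN
        constructor <;> intro hx <;> omega

/-- `N_{rk2}^0 = 0 mod 4` -/
theorem rk2_zero_dvd {N : ℕ} (hN : N % 4 = 2) (hsq : ∀ x y : ℕ, x * x + y * y ≠ N) :
    4 ∣ cnt N (fun a b c d => c < a ∧ (a + c + d) % 2 = 0) := by
  rw [rk2_zero_eq hN]
  obtain ⟨m, hm⟩ := KK_add_P9a hN hsq
  have h1 := P8_eq_P1 N
  have h3 := P3_eq_P5 N
  have h4 := @P4_eq N
  have h5 := P40_eq_P42 hN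
  have h6 := @O0_eq N
  have h7 := P1_eq_O0 hN
  have h8 := P378 N
  have h9 := P6_eq_P7 N
  have h10 := P9a_eq_P20 N
  omega

/-- `N_{rk2}^1 = 0 mod 4` -/
theorem rk2_one_dvd {N : ℕ} (hN : N % 4 = 2) (hQ : Even (QQ N)) :
    4 ∣ cnt N (fun a b c d => c < a ∧ (a + c + d) % 2 = 1) := by
  rw [rk2_one_eq hN]
  obtain ⟨m, hm⟩ := hQ
  obtain ⟨k, hk⟩ := OO_parity hN
  have h0 := OO_eq N
  have h1 := P8_eq_P1 N
  have h2 := P9_eq_P2 N
  have h4 := @P2_eq N
  have h5 := P40_eq_P42 hN
  have h6 := @O0_eq N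
  have h6' := @O2_eq N
  have h7 := O2_eq_O0 hN
  have h9 := P6_eq_P7 N
  omega

/-- `N_{rk}^0 = 0 mod 4` -/
theorem rk_zero_dvd {N : ℕ} (hN : N % 4 = 2) (hsq : ∀ x y : ℕ, x * x + y * y ≠ N)
    (hF : Even (FM N)) :
    4 ∣ cnt N (fun a b c d => c < a ∧ (a + b + d) % 2 = 0) := by
  rw [rk_zero_eq hN]
  obtain ⟨m, hm⟩ := hF
  obtain ⟨k, hk⟩ := P9a_parity hN hsq
  have h1 := P8_eq_P1 N
  have h4 := @P4_eq N
  have h5 := P40_eq_P42 hN
  have h6 := @O0_eq N
  have h7 := P1_eq_O0 hN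
  have h10 := P9a_eq_P20 N
  omega

/-- `N_{rk}^1 = 0 mod 4` -/
theorem rk_one_dvd {N : ℕ} (hN : N % 4 = 2) (hsq : ∀ x y : ℕ, x * x + y * y ≠ N)
    (hF : Even (FM N)) (hQ : Even (QQ N)) :
    4 ∣ cnt N (fun a b c d => c < a ∧ (a + b + d) % 2 = 1) := by
  rw [rk_one_eq hN]
  obtain ⟨m, hm⟩ := hF
  obtain ⟨m', hm'⟩ := hQ
  obtain ⟨k, hk⟩ := P9a_parity hN hsq
  obtain ⟨k', hk'⟩ := OO_parity hN
  obtain ⟨k'', hk''⟩ := KK_add_P9a hN hsq
  have h0 := OO_eq N
  have h1 := P8_eq_P1 N
  have h2 := P9_eq_P2 N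
  have h3 := P3_eq_P5 N
  have h4 := @P2_eq N
  have h5 := P40_eq_P42 hN
  have h6 := @O0_eq N
  have h6' := @O2_eq N
  have h7 := O2_eq_O0 hN
  have h8 := P378 N
  have h9 := P6_eq_P7 N
  omega

theorem QQ_zero {N : ℕ} (h : ∀ a c : ℕ, a % 2 = 1 → c % 2 = 0 → 2 * (a * a) + c * c ≠ N) :
    QQ N = 0 := by
  apply cnt_zero
  rintro a b c d ha hb hc hd h5 ⟨h1, h2, h3, h4⟩
  subst h2
  subst h4
  apply h a d h1 h3
  rw [← h5]; ring

end Pool.Agent.Helper5
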