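import Pool.Agent.Helper5.QuadSteps

namespace Pool.Agent.Helper5

open Finset

theorem mod4_F {a b c d N : ℕ} (h : a * b + c * d = N) (hN : N % 4 = 2)
    (ha : a % 2 = 1) (hb : b % 2 = 0) (hc : c % 2 = 0) (hd : d % 2 = 0) : b % 4 = 2 := by
  have := res4 h hN
  have h1 : a % 4 = 1 ∨ a % 4 = 3 := by omega
  have h2 : b % 4 = 0 ∨ b % 4 = 2 := by omega
  have h3 : c % 4 = 0 ∨ c % 4 = 2 := by omega
  have h4 : d % 4 = 0 ∨ d % 4 = 2 := by omega
  rcases h1 with h1 | h1 <;> rcases h2 with h2 | h2 <;> rcases h3 with h3 | h3 <;>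
    rcases h4 with h4 | h4 <;> rw [h1, h2, h3, h4] at this <;> omega

/-- `OO` and `QQ` have the same parity. -/
theorem OO_parity {N : ℕ} (hN : N % 4 = 2) : ∃ m, OO N = QQ N + 2 * m := by
  have hs : OO N = QQ N + cnt N (fun a b c d => (a % 2 = 1 ∧ b % 2 = 0 ∧ c % 2 = 0 ∧ d % 2 = 0)
      ∧ ¬ (b = 2 * a ∧ d = c)) := by
    unfold OO QQ
    rw [cnt_split _ (fun a b c d => b = 2 * a ∧ d = c)]
    congr 1
    apply cnt_congr
    intro a b c d _ _ _ _ _
    constructor <;> intro hx <;> omega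
  have he : Even (cnt N (fun a b c d => (a % 2 = 1 ∧ b % 2 = 0 ∧ c % 2 = 0 ∧ d % 2 = 0)
      ∧ ¬ (b = 2 * a ∧ d = c))) := by
    refine cnt_even _ (fun a b c d => if b = 2 * a then (a, b, d, c) else (b / 2, 2 * a, c, d)) ?_
    intro a b c d ha hb hc hd h hx
    have h4 := mod4_F h hN hx.1.1 hx.1.2.1 hx.1.2.2.1 hx.1.2.2.2
    by_cases hba : b = 2 * a
    · simp only [hba, if_true]
      refine ⟨mem_Sol.2 ⟨⟨ha, by omega, hd, hc⟩, by rw [← h, hba]; ring⟩, ?_, trivial, ?_⟩
      · simp only [true_and, and_true]; omega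
      · intro h5
        simp only [Prod.mk.injEq] at h5
        omega
    · have hb2 : ¬ (2 * a = 2 * (b / 2)) := by omega
      simp only [hba, if_false, hb2]
      refine ⟨mem_Sol.2 ⟨⟨by omega, by omega, hc, hd⟩, ?_⟩, ?_, ?_, ?_⟩
      · rw [← h]
        obtain ⟨k, rfl⟩ : ∃ k, b = 2 * k := ⟨b / 2, by omega⟩
        rw [Nat.mul_div_cancel_left k (by norm_num)]; ring
      · simp only [false_and, not_false_iff, and_true]; omega
      · simp only [Prod.mk.injEq, true_and, and_true]; omega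
      · intro h5
        simp only [Prod.mk.injEq] at h5
        omega
  obtain ⟨m, hm⟩ := he
  exact ⟨m, by rw [hs, hm]; ring⟩

theorem mod4_G {a b c d N : ℕ} (h : a * b + c * d = N) (hN : N % 4 = 2)
    (ha : a % 2 = 1) (hb : b % 2 = 1) (hc : c % 2 = 1) (hd : d % 2 = 1) (hbd : (b + d) % 4 = 0) :
    (a + c) % 4 = 0 := by
  have := res4 h hN
  have h1 : a % 4 = 1 ∨ a % 4 = 3 := by omega
  have h2 : b % 4 = 1 ∨ b % 4 = 3 := by omega
  have h3 : c % 4 = 1 ∨ c % 4 = 3 := by omega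
  have h4 : d % 4 = 1 ∨ d % 4 = 3 := by omega
  rcases h1 with h1 | h1 <;> rcases h2 with h2 | h2 <;> rcases h3 with h3 | h3 <;>
    rcases h4 with h4 | h4 <;> rw [h1, h2, h3, h4] at this <;> omega

theorem P9a_parity {N : ℕ} (hN : N % 4 = 2) (hsq : ∀ x y : ℕ, x * x + y * y ≠ N) :
    ∃ m, P9a N = FM N + 2 * m := by
  have hs : P9a N = FM N + cnt N (fun a b c d => (c < a ∧ a % 2 = 1 ∧ b % 2 = 1 ∧ c % 2 = 1
      ∧ d % 2 = 1 ∧ (b + d) % 4 = 0) ∧ ¬ (b = c ∧ d = a)) := by
    unfold P9a FM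
    rw [cnt_split _ (fun a b c d => b = c ∧ d = a)]
    congr 1
    apply cnt_congr
    intro a b c d _ _ _ _ _
    constructor <;> intro hx <;> omega
  have he : Even (cnt N (fun a b c d => (c < a ∧ a % 2 = 1 ∧ b % 2 = 1 ∧ c % 2 = 1
      ∧ d % 2 = 1 ∧ (b + d) % 4 = 0) ∧ ¬ (b = c ∧ d = a))) := by
    refine cnt_even _ (fun a b c d => if d < b then (b, a, d, c) else (d, c, b, a)) ?_
    intro a b c d ha hb hc hd h hx
    have h4 := mod4_G h hN hx.1.2.1 hx.1.2.2.1 hx.1.2.2.2.1 hx.1.2.2.2.2.1 hx.1.2.2.2.2.2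
    by_cases hdb : d < b
    · simp only [hdb, if_true]
      refine ⟨mem_Sol.2 ⟨⟨hb, ha, hd, hc⟩, by rw [← h]; ring⟩, ?_, ?_, ?_⟩
      · simp only [true_and, and_true]; omega
      · simp only [hx.1.1, if_true]
      · intro h5
        simp only [Prod.mk.injEq] at h5
        apply hsq a c
        rw [← h, h5.2.1]
        have : c = d := by omega
        rw [this]
    · have hca : ¬ a < c := by omega
      simp only [hdb, if_false, hca]
      refine ⟨mem_Sol.2 ⟨⟨hd, hc, hb, ha⟩, by rw [← h]; ring⟩, ?_, trivial, ?_⟩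
      · omega
      · intro h5
        simp only [Prod.mk.injEq] at h5
        omega
  obtain ⟨m, hm⟩ := he
  exact ⟨m, by rw [hs, hm]; ring⟩

/-- second form of the diagonal class -/
noncomputable def K2 (N : ℕ) : ℕ := cnt N fun a b c d => a = c ∧ a % 2 = 0 ∧ b % 2 = 1 ∧ d = b + 1

theorem KK_parity (N : ℕ) : ∃ m, KK N = K2 N + 2 * m := by
  have hs : KK N = K2 N + cnt N (fun a b c d => (a = c ∧ a % 2 = 0 ∧ b % 2 = 1 ∧ d % 2 = 0)
      ∧ ¬ (d = b + 1)) := by
    unfold KK K2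
    rw [cnt_split _ (fun a b c d => d = b + 1)]
    congr 1
    apply cnt_congr
    intro a b c d _ _ _ _ _
    constructor <;> intro hx <;> omega
  have he : Even (cnt N (fun a b c d => (a = c ∧ a % 2 = 0 ∧ b % 2 = 1 ∧ d % 2 = 0)
      ∧ ¬ (d = b + 1))) := by
    refine cnt_even _ (fun a b c d => (a, d - 1, c, b + 1)) ?_
    intro a b c d ha hb hc hd h hx
    obtain ⟨k, rfl⟩ : ∃ k, d = k + 1 := ⟨d - 1, by omega⟩
    refine ⟨mem_Sol.2 ⟨⟨ha, by omega, hc, by omega⟩, ?_⟩, ?_, ?_, ?_⟩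
    · rw [← h, hx.1.1, Nat.add_sub_cancel]; ring
    · simp only; omega
    · simp only [Prod.mk.injEq, true_and, and_true]; omega
    · intro h5
      simp only [Prod.mk.injEq] at h5
      omega
  obtain ⟨m, hm⟩ := he
  exact ⟨m, by rw [hs, hm]; ring⟩

theorem mul_mod4 (x y : ℕ) : (x * y) % 4 = ((x % 4) * (y % 4)) % 4 := Nat.mul_mod x y 4

theorem K2_facts {N a b : ℕ} (h : a * b + a * (b + 1) = N) (ha : a % 2 = 0) (hb : b % 2 = 1) :
    (a / 2) * (2 * b + 1) * 2 = N ∧ (2 * b + 1) % 4 = 3 := by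
  obtain ⟨k, rfl⟩ : ∃ k, a = 2 * k := ⟨a / 2, by omega⟩
  refine ⟨?_, by omega⟩
  rw [Nat.mul_div_cancel_left k (by norm_num), ← h]; ring

/-- When `N = 6 mod 8`, the two classes have the same size. -/
theorem K2_eq_FM {N : ℕ} (hN : N % 8 = 6) : K2 N = FM N := by
  refine cnt_bij _ _
    (fun a b c d => if 2 * b + 1 < a / 2 then (a / 2, 2 * b + 1, 2 * b + 1, a / 2)
      else (2 * b + 1, a / 2, a / 2, 2 * b + 1))
    (fun a b c d => if a % 4 = 3 then (2 * c, (a - 1) / 2, 2 * c, (a + 1) / 2)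
      else (2 * a, (c - 1) / 2, 2 * a, (c + 1) / 2)) ?_ ?_
  · intro a b c d ha hb hc hd h hx
    obtain ⟨h1, h2, h3, h4⟩ := hx
    subst h1
    subst h4
    obtain ⟨h5, h6⟩ := K2_facts h h2 h3
    have h7 : (a / 2) % 4 = 1 := by
      have h8 : ((a / 2) * (2 * b + 1)) % 4 = 3 := by omega
      rw [mul_mod4, h6] at h8
      have h9 : (a / 2) % 4 < 4 := Nat.mod_lt _ (by norm_num)
      omega
    by_cases hlt : 2 * b + 1 < a / 2
    · have h10 : ¬ (a / 2) % 4 = 3 := by omega
      simp only [hlt, if_true, h10, if_false]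
      refine ⟨mem_Sol.2 ⟨⟨by omega, by omega, by omega, by omega⟩, by rw [← h5]; ring⟩, ?_, ?_⟩
      · simp only [true_and, and_true]; omega
      · simp only [Prod.mk.injEq, true_and, and_true]; omega
    · simp only [hlt, if_false, h6, if_true]
      refine ⟨mem_Sol.2 ⟨⟨by omega, by omega, by omega, by omega⟩, by rw [← h5]; ring⟩, ?_, ?_⟩
      · simp only [true_and, and_true]; omega
      · simp only [Prod.mk.injEq, true_and, and_true]; omega
  · intro a b c d ha hb hc hd h hx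
    obtain ⟨h1, h2, h3, h4, h5, h6⟩ := hx
    subst h3
    subst h5
    by_cases h7 : d % 4 = 3
    · have e1 : 2 * ((d - 1) / 2) + 1 = d := by omega
      have e2 : 2 * b / 2 = b := by omega
      have e3 : ¬ d < b := by omega
      simp only [h7, if_true, e1, e2, e3, if_false]
      refine ⟨mem_Sol.2 ⟨⟨by omega, by omega, by omega, by omega⟩, ?_⟩, ?_, trivial⟩
      · obtain ⟨k, rfl⟩ : ∃ k, d = 2 * k + 1 := ⟨d / 2, by omega⟩
        have f1 : (2 * k + 1 - 1) / 2 = k := by omega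
        have f2 : (2 * k + 1 + 1) / 2 = k + 1 := by omega
        rw [f1, f2, ← h]; ring
      · simp only [true_and, and_true]; omega
    · have e1 : 2 * ((b - 1) / 2) + 1 = b := by omega
      have e2 : 2 * d / 2 = d := by omega
      simp only [h7, if_false, e1, e2, h1, if_true]
      refine ⟨mem_Sol.2 ⟨⟨by omega, by omega, by omega, by omega⟩, ?_⟩, ?_, trivial⟩
      · obtain ⟨k, rfl⟩ : ∃ k, b = 2 * k + 1 := ⟨b / 2, by omega⟩
        have f1 : (2 * k + 1 - 1) / 2 = k := by omega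
        have f2 : (2 * k + 1 + 1) / 2 = k + 1 := by omega
        rw [f1, f2, ← h]; ring
      · simp only [true_and, and_true]; omega

theorem FM_zero {N : ℕ} (hN : N % 8 = 2) : FM N = 0 := by
  have : FM N = cnt N (fun _ _ _ _ => False) := by
    apply cnt_congr
    intro a b c d ha hb hc hd h
    constructor
    · rintro ⟨h1, h2, h3, h4, h5, h6⟩
      subst h3
      subst h5
      have h7 : (d * b) % 4 = 1 := by
        have : d * b + b * d = 2 * (d * b) := by ring
        omega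
      rw [mul_mod4] at h7
      have h8 : d % 4 = 1 ∨ d % 4 = 3 := by omega
      have h9 : b % 4 = 1 ∨ b % 4 = 3 := by omega
      rcases h8 with h8 | h8 <;> rcases h9 with h9 | h9 <;> rw [h8, h9] at h7 <;> omega
    · exact False.elim
  rw [this]
  classical
  unfold cnt
  simp

theorem K2_even {N : ℕ} (hN : N % 8 = 2) (hsq : ∀ x y : ℕ, x * x + y * y ≠ N) :
    Even (K2 N) := by
  refine cnt_even _ (fun a b c d => (2 * (2 * b + 1), (a / 2 - 1) / 2, 2 * (2 * b + 1),
    (a / 2 + 1) / 2)) ?_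
  intro a b c d ha hb hc hd h hx
  obtain ⟨h1, h2, h3, h4⟩ := hx
  subst h1
  subst h4
  obtain ⟨h5, h6⟩ := K2_facts h h2 h3
  have h7 : (a / 2) % 4 = 3 := by
    have h8 : ((a / 2) * (2 * b + 1)) % 4 = 1 := by omega
    rw [mul_mod4, h6] at h8
    have h9 : (a / 2) % 4 < 4 := Nat.mod_lt _ (by norm_num)
    omega
  obtain ⟨k, hk⟩ : ∃ k, a = 2 * (2 * k + 1) := ⟨a / 4, by omega⟩
  subst hk
  have f0 : 2 * (2 * k + 1) / 2 = 2 * k + 1 := by omega
  have f1 : (2 * k + 1 - 1) / 2 = k := by omega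
  have f2 : (2 * k + 1 + 1) / 2 = k + 1 := by omega
  rw [f0] at h7 h5
  have f3 : 2 * (2 * b + 1) / 2 = 2 * b + 1 := by omega
  have f4 : (2 * b + 1 - 1) / 2 = b := by omega
  have f5 : (2 * b + 1 + 1) / 2 = b + 1 := by omega
  simp only [f0, f1, f2, f3, f4, f5]
  refine ⟨mem_Sol.2 ⟨⟨by omega, by omega, by omega, by omega⟩, ?_⟩, ?_, trivial, ?_⟩
  · rw [← h5]; ring
  · simp only [true_and, and_true]; omega
  · intro h8
    simp only [Prod.mk.injEq] at h8
    apply hsq (2 * k + 1) (2 * k + 1)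
    have : b = k := by omega
    rw [← h5, this]; ring

/-- The diagonal class and the class `9a` have the same parity if `N` is not a sum of two
squares. -/
theorem KK_add_P9a {N : ℕ} (hN : N % 4 = 2) (hsq : ∀ x y : ℕ, x * x + y * y ≠ N) :
    Even (KK N + P9a N) := by
  obtain ⟨m1, h1⟩ := KK_parity N
  obtain ⟨m2, h2⟩ := P9a_parity hN hsq
  rcases (by omega : N % 8 = 2 ∨ N % 8 = 6) with h8 | h8
  · obtain ⟨m3, h3⟩ := K2_even h8 hsq
    rw [h1, h2, h3, FM_zero h8]
    exact ⟨m3 + m1 + m2, by ring⟩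
  · rw [h1, h2, K2_eq_FM h8]
    exact ⟨FM N + m1 + m2, by ring⟩

theorem res3 {N a d : ℕ} (h3 : N % 3 = 0) (h9 : N % 9 ≠ 0) (h : a * (2 * a) + d * d = N) :
    (2 * a) % 3 ≠ 0 ∧ d % 3 ≠ 0 ∧ ((2 * a) % 3 = d % 3 ∨ ((2 * a) + d) % 3 = 0) := by
  have e1 : N % 3 = (2 * ((a % 3) * (a % 3)) + (d % 3) * (d % 3)) % 3 := by
    rw [← h]
    have : a * (2 * a) = 2 * (a * a) := by ring
    rw [this]
    simp [Nat.add_mod, Nat.mul_mod]
  have e2 : a % 3 < 3 := Nat.mod_lt _ (by norm_num)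
  have e3 : d % 3 < 3 := Nat.mod_lt _ (by norm_num)
  have e4 : ¬ (a % 3 = 0 ∧ d % 3 = 0) := by
    rintro ⟨f1, f2⟩
    obtain ⟨u, rfl⟩ : ∃ u, a = 3 * u := ⟨a / 3, by omega⟩
    obtain ⟨v, rfl⟩ : ∃ v, d = 3 * v := ⟨d / 3, by omega⟩
    apply h9
    rw [← h]
    have : 3 * u * (2 * (3 * u)) + 3 * v * (3 * v) = 9 * (2 * (u * u) + v * v) := by ring
    rw [this]
    omega
  have f1 : a % 3 = 0 ∨ a % 3 = 1 ∨ a % 3 = 2 := by omega
  have f2 : d % 3 = 0 ∨ d % 3 = 1 ∨ d % 3 = 2 := by omega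
  rcases f1 with f1 | f1 | f1 <;> rcases f2 with f2 | f2 | f2 <;>
    rw [f1, f2] at e1 <;> omega

/-- Evenness of `QQ` when `3` divides `N` exactly once and `N / 6` is not a square. -/
theorem QQ_even_three {N : ℕ} (hN : N % 4 = 2) (h3 : N % 3 = 0) (h9 : N % 9 ≠ 0)
    (hns : ∀ k : ℕ, 6 * (k * k) ≠ N) : Even (QQ N) := by
  refine cnt_even _ (fun a b c d =>
    if b % 3 = c % 3 then
      (if a < 2 * c then ((2 * c - a) / 3, 2 * ((2 * c - a) / 3), (4 * a + c) / 3, (4 * a + c) / 3)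
       else ((a - 2 * c) / 3, 2 * ((a - 2 * c) / 3), (4 * a + c) / 3, (4 * a + c) / 3))
    else
      (if c < 4 * a then ((a + 2 * c) / 3, 2 * ((a + 2 * c) / 3), (4 * a - c) / 3, (4 * a - c) / 3)
       else ((a + 2 * c) / 3, 2 * ((a + 2 * c) / 3), (c - 4 * a) / 3, (c - 4 * a) / 3))) ?_
  intro a b c d ha hb hc hd h hx
  obtain ⟨h1, h2, h4, h5⟩ := hx
  subst h2
  subst h5
  have hmod := res3 h3 h9 h
  obtain ⟨hm1, hm2, hm3⟩ := hmod
  by_cases hc1 : (2 * a) % 3 = d % 3
  · by_cases hc2 : a < 2 * d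
    · -- case A1
      obtain ⟨u, hu⟩ : ∃ u, 2 * d = a + 3 * u := ⟨(2 * d - a) / 3, by omega⟩
      obtain ⟨v, hv⟩ : ∃ v, 4 * a + d = 3 * v := ⟨(4 * a + d) / 3, by omega⟩
      have e1 : (2 * d - a) / 3 = u := by omega
      have e2 : (4 * a + d) / 3 = v := by omega
      have e3 : (2 * u) % 3 = v % 3 := by omega
      have e4 : u < 2 * v := by omega
      have e5 : (2 * v - u) / 3 = a := by omega
      have e6 : (4 * u + v) / 3 = d := by omega
      simp only [hc1, if_true, hc2, e1, e2, e3, e4, e5, e6]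
      refine ⟨mem_Sol.2 ⟨⟨by omega, by omega, by omega, by omega⟩, ?_⟩, ?_, trivial, ?_⟩
      · have : 9 * (u * (2 * u) + v * v) = 9 * N := by
          rw [← h]
          zify at hu hv ⊢
          have hu' : (3 * u : ℤ) = 2 * d - a := by linarith
          have : (9 * ((u:ℤ) * (2 * u) + v * v)) = 2 * (3 * u) ^ 2 + (3 * v) ^ 2 := by ring
          rw [this, hu', ← hv]; ring
        omega
      · simp only [true_and, and_true]; omega
      · intro h6
        simp only [Prod.mk.injEq] at h6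
        have : d = 2 * a := by omega
        apply hns a
        rw [← h, this]; ring
    · -- case A2
      obtain ⟨u, hu⟩ : ∃ u, a = 2 * d + 3 * u := ⟨(a - 2 * d) / 3, by omega⟩
      obtain ⟨v, hv⟩ : ∃ v, 4 * a + d = 3 * v := ⟨(4 * a + d) / 3, by omega⟩
      have heq : u * (2 * u) + v * v = N := by
        have : 9 * (u * (2 * u) + v * v) = 9 * N := by
          rw [← h]
          zify at hu hv ⊢
          have hu' : (3 * u : ℤ) = a - 2 * d := by linarith
          have : (9 * ((u:ℤ) * (2 * u) + v * v)) = 2 * (3 * u) ^ 2 + (3 * v) ^ 2 := by ring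
          rw [this, hu', ← hv]; ring
        omega
      have hr := res3 h3 h9 heq
      have e1 : (a - 2 * d) / 3 = u := by omega
      have e2 : (4 * a + d) / 3 = v := by omega
      have e3 : ¬ (2 * u) % 3 = v % 3 := by omega
      have e4 : ¬ v < 4 * u := by omega
      have e5 : (u + 2 * v) / 3 = a := by omega
      have e6 : (v - 4 * u) / 3 = d := by omega
      simp only [hc1, if_true, hc2, if_false, e1, e2, e3, e4, e5, e6]
      refine ⟨mem_Sol.2 ⟨⟨by omega, by omega, by omega, by omega⟩, ?_⟩, ?_, trivial, ?_⟩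
      · exact heq
      · simp only [true_and, and_true]; omega
      · intro h6
        simp only [Prod.mk.injEq] at h6
        omega
  · have hc3 : (2 * a + d) % 3 = 0 := by omega
    by_cases hc2 : d < 4 * a
    · -- case B1
      obtain ⟨u, hu⟩ : ∃ u, a + 2 * d = 3 * u := ⟨(a + 2 * d) / 3, by omega⟩
      obtain ⟨v, hv⟩ : ∃ v, 4 * a = d + 3 * v := ⟨(4 * a - d) / 3, by omega⟩
      have heq : u * (2 * u) + v * v = N := by
        have : 9 * (u * (2 * u) + v * v) = 9 * N := by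
          rw [← h]
          zify at hu hv ⊢
          have hv' : (3 * v : ℤ) = 4 * a - d := by linarith
          have : (9 * ((u:ℤ) * (2 * u) + v * v)) = 2 * (3 * u) ^ 2 + (3 * v) ^ 2 := by ring
          rw [this, hv', ← hu]; ring
        omega
      have hr := res3 h3 h9 heq
      have e1 : (a + 2 * d) / 3 = u := by omega
      have e2 : (4 * a - d) / 3 = v := by omega
      have e3 : ¬ (2 * u) % 3 = v % 3 := by omega
      have e4 : v < 4 * u := by omega
      have e5 : (u + 2 * v) / 3 = a := by omega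
      have e6 : (4 * u - v) / 3 = d := by omega
      simp only [hc1, if_false, hc2, if_true, e1, e2, e3, e4, e5, e6]
      refine ⟨mem_Sol.2 ⟨⟨by omega, by omega, by omega, by omega⟩, ?_⟩, ?_, trivial, ?_⟩
      · exact heq
      · simp only [true_and, and_true]; omega
      · intro h6
        simp only [Prod.mk.injEq] at h6
        omega
    · -- case B2
      obtain ⟨u, hu⟩ : ∃ u, a + 2 * d = 3 * u := ⟨(a + 2 * d) / 3, by omega⟩
      obtain ⟨v, hv⟩ : ∃ v, d = 4 * a + 3 * v := ⟨(d - 4 * a) / 3, by omega⟩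
      have hv0 : 0 < v := by
        rcases Nat.eq_zero_or_pos v with h0 | h0
        · exfalso
          rw [h0] at hv
          apply h9
          rw [← h, hv]
          have : a * (2 * a) + (4 * a + 3 * 0) * (4 * a + 3 * 0) = 9 * (2 * (a * a)) := by ring
          rw [this]; omega
        · exact h0
      have e1 : (a + 2 * d) / 3 = u := by omega
      have e2 : (d - 4 * a) / 3 = v := by omega
      have e3 : (2 * u) % 3 = v % 3 := by omega
      have e4 : ¬ u < 2 * v := by omega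
      have e5 : (u - 2 * v) / 3 = a := by omega
      have e6 : (4 * u + v) / 3 = d := by omega
      simp only [hc1, if_false, hc2, if_true, e1, e2, e3, e4, e5, e6]
      refine ⟨mem_Sol.2 ⟨⟨by omega, by omega, by omega, by omega⟩, ?_⟩, ?_, trivial, ?_⟩
      · have : 9 * (u * (2 * u) + v * v) = 9 * N := by
          rw [← h]
          zify at hu hv ⊢
          have hv' : (3 * v : ℤ) = d - 4 * a := by linarith
          have : (9 * ((u:ℤ) * (2 * u) + v * v)) = 2 * (3 * u) ^ 2 + (3 * v) ^ 2 := by ring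
          rw [this, hv', ← hu]; ring
        omega
      · simp only [true_and, and_true]; omega
      · intro h6
        simp only [Prod.mk.injEq] at h6
        omega

end Pool.Agent.Helper5
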