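import Pool.Agent.Helper5.Quad

namespace Pool.Agent.Helper5

open Finset

theorem res4 {a b c d N : ℕ} (h : a * b + c * d = N) (hN : N % 4 = 2) :
    ((a % 4) * (b % 4) + (c % 4) * (d % 4)) % 4 = 2 := by
  rw [← hN, ← h, Nat.add_mod, Nat.add_mod (a * b), Nat.mul_mod a b 4, Nat.mul_mod c d 4]

/-- Conjugation of the frequency data. -/
def conj (a b c d : ℕ) : ℕ × ℕ × ℕ × ℕ := (b + d, c, b, a - c)

theorem conj_mem {N a b c d : ℕ} (ha : 0 < a) (hb : 0 < b) (hc : 0 < c) (hd : 0 < d)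
    (h : a * b + c * d = N) (hca : c < a) :
    conj a b c d ∈ Sol N ∧ (conj a b c d).2.2.1 < (conj a b c d).1 ∧
      conj (conj a b c d).1 (conj a b c d).2.1 (conj a b c d).2.2.1 (conj a b c d).2.2.2
        = (a, b, c, d) := by
  obtain ⟨k, rfl⟩ := Nat.exists_eq_add_of_lt hca
  unfold conj
  refine ⟨?_, ?_, ?_⟩
  · rw [mem_Sol]
    refine ⟨⟨by omega, by omega, by omega, by omega⟩, ?_⟩
    rw [← h]
    have : c + k + 1 - c = k + 1 := by omega
    rw [this]; ring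
  · simp only; omega
  · simp only [Prod.mk.injEq]
    refine ⟨by omega, trivial, trivial, by omega⟩

/-- A generic way to transport a count along conjugation. -/
theorem cnt_conj {N : ℕ} (p q : ℕ → ℕ → ℕ → ℕ → Prop)
    (hp : ∀ a b c d, p a b c d → c < a) (hq : ∀ a b c d, q a b c d → c < a)
    (hpq : ∀ a b c d, 0 < a → 0 < b → 0 < c → 0 < d → a * b + c * d = N → c < a → p a b c d →
      q (b + d) c b (a - c))
    (hqp : ∀ a b c d, 0 < a → 0 < b → 0 < c → 0 < d → a * b + c * d = N → c < a → q a b c d →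
      p (b + d) c b (a - c)) : cnt N p = cnt N q := by
  refine cnt_bij p q conj conj ?_ ?_
  · intro a b c d ha hb hc hd h hx
    have := conj_mem ha hb hc hd h (hp _ _ _ _ hx)
    exact ⟨this.1, hpq a b c d ha hb hc hd h (hp _ _ _ _ hx) hx, this.2.2⟩
  · intro a b c d ha hb hc hd h hx
    have := conj_mem ha hb hc hd h (hq _ _ _ _ hx)
    exact ⟨this.1, hqp a b c d ha hb hc hd h (hq _ _ _ _ hx) hx, this.2.2⟩

/-- Transport along exchanging the two pairs. -/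
theorem cnt_swap {N : ℕ} (p q : ℕ → ℕ → ℕ → ℕ → Prop)
    (hpq : ∀ a b c d, p a b c d ↔ q c d a b) : cnt N p = cnt N q := by
  refine cnt_bij p q (fun a b c d => (c, d, a, b)) (fun a b c d => (c, d, a, b)) ?_ ?_
  · intro a b c d ha hb hc hd h hx
    refine ⟨mem_Sol.2 ⟨⟨hc, hd, ha, hb⟩, by rw [← h]; ring⟩, (hpq _ _ _ _).1 hx, rfl⟩
  · intro a b c d ha hb hc hd h hx
    refine ⟨mem_Sol.2 ⟨⟨hc, hd, ha, hb⟩, by rw [← h]; ring⟩, (hpq _ _ _ _).2 hx, rfl⟩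

/-- Pattern counts.  `P i` is the class number `i` of the notes. -/
def E (x : ℕ) : Prop := x % 2 = 0
def O (x : ℕ) : Prop := x % 2 = 1

noncomputable def P1 (N : ℕ) : ℕ := cnt N fun a b c d => c < a ∧ a % 2 = 0 ∧ b % 2 = 1 ∧ c % 2 = 0 ∧ d % 2 = 1
noncomputable def P2 (N : ℕ) : ℕ := cnt N fun a b c d => c < a ∧ a % 2 = 0 ∧ b % 2 = 1 ∧ c % 2 = 1 ∧ d % 2 = 0
noncomputable def P3 (N : ℕ) : ℕ := cnt N fun a b c d => c < a ∧ a % 2 = 0 ∧ b % 2 = 1 ∧ c % 2 = 0 ∧ d % 2 = 0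
noncomputable def P4 (N : ℕ) : ℕ := cnt N fun a b c d => c < a ∧ a % 2 = 1 ∧ b % 2 = 0 ∧ c % 2 = 0 ∧ d % 2 = 1
noncomputable def P5 (N : ℕ) : ℕ := cnt N fun a b c d => c < a ∧ a % 2 = 1 ∧ b % 2 = 0 ∧ c % 2 = 1 ∧ d % 2 = 0
noncomputable def P6 (N : ℕ) : ℕ := cnt N fun a b c d => c < a ∧ a % 2 = 1 ∧ b % 2 = 0 ∧ c % 2 = 0 ∧ d % 2 = 0
noncomputable def P7 (N : ℕ) : ℕ := cnt N fun a b c d => c < a ∧ a % 2 = 0 ∧ b % 2 = 0 ∧ c % 2 = 0 ∧ d % 2 = 1
noncomputable def P8 (N : ℕ) : ℕ := cnt N fun a b c d => c < a ∧ a % 2 = 0 ∧ b % 2 = 0 ∧ c % 2 = 1 ∧ d % 2 = 0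
noncomputable def P9 (N : ℕ) : ℕ := cnt N fun a b c d => c < a ∧ a % 2 = 1 ∧ b % 2 = 1 ∧ c % 2 = 1 ∧ d % 2 = 1

theorem P8_eq_P1 (N : ℕ) : P8 N = P1 N := by
  refine cnt_conj _ _ (fun a b c d h => h.1) (fun a b c d h => h.1) ?_ ?_ <;>
  · intro a b c d ha hb hc hd h hca hx
    omega

theorem P9_eq_P2 (N : ℕ) : P9 N = P2 N := by
  refine cnt_conj _ _ (fun a b c d h => h.1) (fun a b c d h => h.1) ?_ ?_ <;>
  · intro a b c d ha hb hc hd h hca hx
    omega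

theorem P3_eq_P5 (N : ℕ) : P3 N = P5 N := by
  refine cnt_conj _ _ (fun a b c d h => h.1) (fun a b c d h => h.1) ?_ ?_ <;>
  · intro a b c d ha hb hc hd h hca hx
    omega

theorem P6_eq_P7 (N : ℕ) : P6 N = P7 N := by
  refine cnt_conj _ _ (fun a b c d h => h.1) (fun a b c d h => h.1) ?_ ?_ <;>
  · intro a b c d ha hb hc hd h hca hx
    omega

/-- class 4 with `c` divisible by 4 -/
noncomputable def P40 (N : ℕ) : ℕ := cnt N fun a b c d => c < a ∧ a % 2 = 1 ∧ b % 2 = 0 ∧ c % 4 = 0 ∧ d % 2 = 1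
noncomputable def P42 (N : ℕ) : ℕ := cnt N fun a b c d => c < a ∧ a % 2 = 1 ∧ b % 2 = 0 ∧ c % 4 = 2 ∧ d % 2 = 1
noncomputable def P9a (N : ℕ) : ℕ := cnt N fun a b c d => c < a ∧ a % 2 = 1 ∧ b % 2 = 1 ∧ c % 2 = 1 ∧ d % 2 = 1 ∧ (b + d) % 4 = 0
noncomputable def P20 (N : ℕ) : ℕ := cnt N fun a b c d => c < a ∧ a % 4 = 0 ∧ b % 2 = 1 ∧ c % 2 = 1 ∧ d % 2 = 0
noncomputable def P22 (N : ℕ) : ℕ := cnt N fun a b c d => c < a ∧ a % 4 = 2 ∧ b % 2 = 1 ∧ c % 2 = 1 ∧ d % 2 = 0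
noncomputable def O0 (N : ℕ) : ℕ := cnt N fun a b c d => a % 4 = 0 ∧ b % 2 = 1 ∧ c % 2 = 1 ∧ d % 2 = 0
noncomputable def O2 (N : ℕ) : ℕ := cnt N fun a b c d => a % 4 = 2 ∧ b % 2 = 1 ∧ c % 2 = 1 ∧ d % 2 = 0
noncomputable def KK (N : ℕ) : ℕ := cnt N fun a b c d => a = c ∧ a % 2 = 0 ∧ b % 2 = 1 ∧ d % 2 = 0
noncomputable def OO (N : ℕ) : ℕ := cnt N fun a b c d => a % 2 = 1 ∧ b % 2 = 0 ∧ c % 2 = 0 ∧ d % 2 = 0
noncomputable def QQ (N : ℕ) : ℕ := cnt N fun a b c d => a % 2 = 1 ∧ b = 2 * a ∧ c % 2 = 0 ∧ d = c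
noncomputable def FM (N : ℕ) : ℕ := cnt N fun a b c d => c < a ∧ a % 2 = 1 ∧ b = c ∧ c % 2 = 1 ∧ d = a ∧ (b + d) % 4 = 0

theorem mod4_A {a b c d N : ℕ} (h : a * b + c * d = N) (hN : N % 4 = 2)
    (ha : a % 2 = 1) (hb : b % 2 = 0) (hc : c % 4 = 0) : b % 4 = 2 := by
  have := res4 h hN
  rw [hc] at this
  have h1 : a % 4 = 1 ∨ a % 4 = 3 := by omega
  have h2 : b % 4 = 0 ∨ b % 4 = 2 := by omega
  rcases h1 with h1 | h1 <;> rcases h2 with h2 | h2 <;> rw [h1, h2] at this <;> omega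

theorem mod4_B {a b c d N : ℕ} (h : a * b + c * d = N) (hN : N % 4 = 2)
    (ha : a % 2 = 1) (hb : b % 2 = 0) (hc : c % 4 = 2) (hd : d % 2 = 1) : b % 4 = 0 := by
  have := res4 h hN
  rw [hc] at this
  have h1 : a % 4 = 1 ∨ a % 4 = 3 := by omega
  have h2 : b % 4 = 0 ∨ b % 4 = 2 := by omega
  have h3 : d % 4 = 1 ∨ d % 4 = 3 := by omega
  rcases h1 with h1 | h1 <;> rcases h2 with h2 | h2 <;> rcases h3 with h3 | h3 <;>
    rw [h1, h2, h3] at this <;> omega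

theorem P40_eq_P42 {N : ℕ} (hN : N % 4 = 2) : P40 N = P42 N := by
  refine cnt_conj _ _ (fun a b c d h => h.1) (fun a b c d h => h.1) ?_ ?_
  · intro a b c d ha hb hc hd h hca hx
    have := mod4_A h hN hx.2.1 hx.2.2.1 hx.2.2.2.1
    omega
  · intro a b c d ha hb hc hd h hca hx
    have := mod4_B h hN hx.2.1 hx.2.2.1 hx.2.2.2.1 hx.2.2.2.2
    omega

theorem P9a_eq_P20 (N : ℕ) : P9a N = P20 N := by
  refine cnt_conj _ _ (fun a b c d h => h.1) (fun a b c d h => h.1) ?_ ?_ <;>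
  · intro a b c d ha hb hc hd h hca hx
    omega

theorem P4_eq {N : ℕ} : P4 N = P40 N + P42 N := by
  unfold P4 P40 P42
  rw [cnt_split _ (fun a b c d => c % 4 = 0)]
  congr 1 <;>
  · apply cnt_congr
    intro a b c d _ _ _ _ _
    constructor <;> intro hx <;> omega

theorem P2_eq {N : ℕ} : P2 N = P20 N + P22 N := by
  unfold P2 P20 P22
  rw [cnt_split _ (fun a b c d => a % 4 = 0)]
  congr 1 <;>
  · apply cnt_congr
    intro a b c d _ _ _ _ _
    constructor <;> intro hx <;> omega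

theorem O0_eq {N : ℕ} : O0 N = P20 N + P40 N := by
  unfold O0
  rw [cnt_split _ (fun a b c d => c < a)]
  congr 1
  · apply cnt_congr
    intro a b c d _ _ _ _ _
    constructor <;> intro hx <;> omega
  · refine cnt_swap _ _ ?_
    intro a b c d
    constructor <;> intro hx <;> omega

theorem O2_eq {N : ℕ} : O2 N = P22 N + P42 N := by
  unfold O2
  rw [cnt_split _ (fun a b c d => c < a)]
  congr 1
  · apply cnt_congr
    intro a b c d _ _ _ _ _
    constructor <;> intro hx <;> omega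
  · refine cnt_swap _ _ ?_
    intro a b c d
    constructor <;> intro hx <;> omega

theorem mod4_C {a b c d N : ℕ} (h : a * b + c * d = N) (hN : N % 4 = 2)
    (ha : a % 4 = 0) (hd : d % 2 = 0) (hc : c % 2 = 1) : d % 4 = 2 := by
  have := res4 h hN
  rw [ha] at this
  have h1 : c % 4 = 1 ∨ c % 4 = 3 := by omega
  have h2 : d % 4 = 0 ∨ d % 4 = 2 := by omega
  rcases h1 with h1 | h1 <;> rcases h2 with h2 | h2 <;> rw [h1, h2] at this <;> omega

theorem mod4_D {a b c d N : ℕ} (h : a * b + c * d = N) (hN : N % 4 = 2)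
    (ha : a % 4 = 2) (hb : b % 2 = 1) (hd : d % 2 = 0) (hc : c % 2 = 1) : d % 4 = 0 := by
  have := res4 h hN
  rw [ha] at this
  have h1 : c % 4 = 1 ∨ c % 4 = 3 := by omega
  have h2 : d % 4 = 0 ∨ d % 4 = 2 := by omega
  have h3 : b % 4 = 1 ∨ b % 4 = 3 := by omega
  rcases h1 with h1 | h1 <;> rcases h2 with h2 | h2 <;> rcases h3 with h3 | h3 <;>
    rw [h1, h2, h3] at this <;> omega

theorem mod4_E {a b c d N : ℕ} (h : a * b + c * d = N) (hN : N % 4 = 2)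
    (ha : a % 2 = 0) (hb : b % 2 = 1) (hc : c % 2 = 0) (hd : d % 2 = 1) :
    (a % 4 = 0 ∧ c % 4 = 2) ∨ (a % 4 = 2 ∧ c % 4 = 0) := by
  have := res4 h hN
  have h1 : a % 4 = 0 ∨ a % 4 = 2 := by omega
  have h2 : c % 4 = 0 ∨ c % 4 = 2 := by omega
  have h3 : b % 4 = 1 ∨ b % 4 = 3 := by omega
  have h4 : d % 4 = 1 ∨ d % 4 = 3 := by omega
  rcases h1 with h1 | h1 <;> rcases h2 with h2 | h2 <;> rcases h3 with h3 | h3 <;>
    rcases h4 with h4 | h4 <;> rw [h1, h2, h3, h4] at this <;> omega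

theorem O2_eq_O0 {N : ℕ} (hN : N % 4 = 2) : O2 N = O0 N := by
  refine cnt_bij _ _ (fun a b c d => (d, c, b, a)) (fun a b c d => (d, c, b, a)) ?_ ?_
  · intro a b c d ha hb hc hd h hx
    have := mod4_D h hN hx.1 hx.2.1 hx.2.2.2 hx.2.2.1
    refine ⟨mem_Sol.2 ⟨⟨hd, hc, hb, ha⟩, by rw [← h]; ring⟩, ?_, rfl⟩
    simp only
    omega
  · intro a b c d ha hb hc hd h hx
    have := mod4_C h hN hx.1 hx.2.2.2 hx.2.2.1
    refine ⟨mem_Sol.2 ⟨⟨hd, hc, hb, ha⟩, by rw [← h]; ring⟩, ?_, rfl⟩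
    simp only
    omega

theorem P1_eq_O0 {N : ℕ} (hN : N % 4 = 2) : P1 N = O0 N := by
  refine cnt_bij _ _ (fun a b c d => if a % 4 = 0 then (a, b, d, c) else (c, d, b, a))
    (fun a b c d => if d < a then (a, b, d, c) else (d, c, a, b)) ?_ ?_
  · intro a b c d ha hb hc hd h hx
    have h4 := mod4_E h hN hx.2.1 hx.2.2.1 hx.2.2.2.1 hx.2.2.2.2
    rcases h4 with h4 | h4
    · simp only [h4.1, if_true, true_and]
      refine ⟨mem_Sol.2 ⟨⟨ha, hb, hd, hc⟩, by rw [← h]; ring⟩, by omega, ?_⟩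
      rw [if_pos hx.1]
    · have h5 : ¬ a % 4 = 0 := by omega
      have h6 : ¬ a < c := by omega
      simp only [h5, if_false, h6]
      refine ⟨mem_Sol.2 ⟨⟨hc, hd, hb, ha⟩, by rw [← h]; ring⟩, by omega, ?_⟩
      trivial
  · intro a b c d ha hb hc hd h hx
    have h4 := mod4_C h hN hx.1 hx.2.2.2 hx.2.2.1
    by_cases hda : d < a
    · simp only [hda, if_true, true_and]
      refine ⟨mem_Sol.2 ⟨⟨ha, hb, hd, hc⟩, by rw [← h]; ring⟩, by omega, ?_⟩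
      rw [if_pos hx.1]
    · have h6 : ¬ d % 4 = 0 := by omega
      simp only [hda, if_false, h6]
      refine ⟨mem_Sol.2 ⟨⟨hd, hc, ha, hb⟩, by rw [← h]; ring⟩, by omega, ?_⟩
      trivial

theorem P378 (N : ℕ) : P3 N + P7 N + KK N = P6 N + P8 N := by
  have e1 : cnt N (fun a b c d => a % 2 = 0 ∧ b % 2 = 1 ∧ c % 2 = 0 ∧ d % 2 = 0)
      = P3 N + P7 N + KK N := by
    rw [cnt_split _ (fun a b c d => a = c), add_comm]
    congr 1
    · rw [cnt_split _ (fun a b c d => c < a)]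
      congr 1
      · apply cnt_congr
        intro a b c d _ _ _ _ _
        constructor <;> intro hx <;> omega
      · refine cnt_swap _ _ ?_
        intro a b c d
        constructor <;> intro hx <;> omega
    · apply cnt_congr
      intro a b c d _ _ _ _ _
      constructor <;> intro hx <;> omega
  have e2 : OO N = P6 N + P8 N := by
    unfold OO
    rw [cnt_split _ (fun a b c d => c < a)]
    congr 1
    · apply cnt_congr
      intro a b c d _ _ _ _ _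
      constructor <;> intro hx <;> omega
    · refine cnt_swap _ _ ?_
      intro a b c d
      constructor <;> intro hx <;> omega
  rw [← e1, ← e2]
  refine cnt_bij _ _ (fun a b c d => (b, a, c, d)) (fun a b c d => (b, a, c, d)) ?_ ?_
  · intro a b c d ha hb hc hd h hx
    refine ⟨mem_Sol.2 ⟨⟨hb, ha, hc, hd⟩, by rw [← h]; ring⟩, ?_, rfl⟩
    simp only
    omega
  · intro a b c d ha hb hc hd h hx
    refine ⟨mem_Sol.2 ⟨⟨hb, ha, hc, hd⟩, by rw [← h]; ring⟩, ?_, rfl⟩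
    simp only
    omega

theorem OO_eq (N : ℕ) : OO N = P6 N + P8 N := by
  unfold OO
  rw [cnt_split _ (fun a b c d => c < a)]
  congr 1
  · apply cnt_congr
    intro a b c d _ _ _ _ _
    constructor <;> intro hx <;> omega
  · refine cnt_swap _ _ ?_
    intro a b c d
    constructor <;> intro hx <;> omega

end Pool.Agent.Helper5
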